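import Mathlib

/-!
# Short cycles as injective maps

Cycles of length `m + 1` are handled as injective maps `c : Fin (m + 1) → V`, with edges
`s(c i, c (i + 1))`.
-/

set_option autoImplicit false

namespace Pool.Agent.Work.MP_db704b_co

open Finset

variable {V : Type*} [Fintype V] [DecidableEq V]

omit [DecidableEq V] in
/-- The sum over paths is at most a power of the maximal row sum. -/
theorem path_sum_le (F : V → V → ℝ) (hF : ∀ u v, 0 ≤ F u v) (D : ℝ) (hD0 : 0 ≤ D)
    (hD : ∀ u, ∑ v, F u v ≤ D) (m : ℕ) :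
    ∀ (g : V → ℝ), (∀ v, 0 ≤ g v) →
      ∑ c : Fin (m + 1) → V, g (c 0) * ∏ i : Fin m, F (c i.castSucc) (c i.succ)
        ≤ (∑ v, g v) * D ^ m := by
  induction m with
  | zero =>
    intro g _
    have h1 : ∑ c : Fin (0 + 1) → V, g (c 0) * ∏ i : Fin 0, F (c i.castSucc) (c i.succ)
        = ∑ v, g v := by
      simp only [univ_eq_empty, prod_empty, mul_one]
      exact Fintype.sum_equiv (Equiv.funUnique (Fin 1) V) _ _ (fun c => rfl)
    rw [h1]
    simp
  | succ m ih =>
    intro g hg
    have h1 : ∑ c : Fin (m + 1 + 1) → V, g (c 0) * ∏ i : Fin (m + 1), F (c i.castSucc) (c i.succ)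
        = ∑ v, ∑ c : Fin (m + 1) → V,
          g v * (F v (c 0) * ∏ i : Fin m, F (c i.castSucc) (c i.succ)) := by
      rw [← Fintype.sum_prod_type']
      refine (Fintype.sum_equiv (Fin.consEquiv (fun _ => V)) _ _ fun p => ?_).symm
      rw [Fin.prod_univ_succ]
      simp [Fin.consEquiv]
    rw [h1, sum_comm]
    have h2 : ∑ c : Fin (m + 1) → V, ∑ v,
          g v * (F v (c 0) * ∏ i : Fin m, F (c i.castSucc) (c i.succ))
        = ∑ c : Fin (m + 1) → V, (fun w => ∑ v, g v * F v w) (c 0)
          * ∏ i : Fin m, F (c i.castSucc) (c i.succ) := by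
      refine sum_congr rfl fun c _ => ?_
      simp only [sum_mul]
      exact sum_congr rfl fun v _ => by ring
    rw [h2]
    refine (ih (fun w => ∑ v, g v * F v w)
      (fun w => sum_nonneg fun v _ => mul_nonneg (hg v) (hF v w))).trans ?_
    have h3 : ∑ w, ∑ v, g v * F v w ≤ (∑ v, g v) * D := by
      rw [sum_comm, sum_mul]
      refine sum_le_sum fun v _ => ?_
      rw [← mul_sum]
      exact mul_le_mul_of_nonneg_left (hD v) (hg v)
    calc (∑ w, ∑ v, g v * F v w) * D ^ m ≤ ((∑ v, g v) * D) * D ^ m :=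
          mul_le_mul_of_nonneg_right h3 (pow_nonneg hD0 m)
      _ = (∑ v, g v) * D ^ (m + 1) := by ring

/-- The set of edges of the closed walk given by `c`. -/
def cedges {m : ℕ} (c : Fin (m + 1) → V) : Finset (Sym2 V) :=
  univ.image fun i : Fin (m + 1) => s(c i, c (i + 1))

omit [Fintype V] [DecidableEq V] in
theorem cedges_inj {m : ℕ} (hm : 2 ≤ m) (c : Fin (m + 1) → V) (hc : Function.Injective c) :
    Function.Injective fun i : Fin (m + 1) => s(c i, c (i + 1)) := by
  intro i j hij
  simp only [Sym2.eq_iff] at hij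
  rcases hij with ⟨h, _⟩ | ⟨h1, h2⟩
  · exact hc h
  · exfalso
    have h3 : i = j + 1 := hc h1
    have h4 : i + 1 = j := hc h2
    rw [h3] at h4
    have h5 : (1 : Fin (m + 1)) + 1 = 0 := by
      have : j + (1 + 1) = j + 0 := by rw [← add_assoc, h4, add_zero]
      exact add_left_cancel this
    have h6 := congrArg Fin.val h5
    rw [Fin.val_add] at h6
    simp only [Fin.val_zero] at h6
    have h7 : ((1 : Fin (m + 1)) : ℕ) = 1 := by
      rw [Fin.val_one']
      exact Nat.mod_eq_of_lt (by omega)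
    rw [h7] at h6
    rw [Nat.mod_eq_of_lt (by omega)] at h6
    omega

theorem prod_cedges {m : ℕ} (hm : 2 ≤ m) (c : Fin (m + 1) → V) (hc : Function.Injective c)
    (f : Sym2 V → ℝ) :
    ∏ e ∈ cedges c, f e
      = (∏ i : Fin m, f s(c i.castSucc, c i.succ)) * f s(c (Fin.last m), c 0) := by
  unfold cedges
  rw [prod_image (fun i _ j _ h => cedges_inj hm c hc h), Fin.prod_univ_castSucc]
  congr 1
  · refine prod_congr rfl fun i _ => ?_
    rw [Fin.coeSucc_eq_succ]
  · rw [Fin.last_add_one]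

/-- The closed walks that are counted: injective, all edges in `E`, and with the closing edge
minimising `P`. -/
noncomputable def cyc (E : Finset (Sym2 V)) (P : Sym2 V → ℝ) (m : ℕ) :
    Finset (Fin (m + 1) → V) := by
  classical
  exact univ.filter fun c => Function.Injective c ∧ cedges c ⊆ E ∧
    ∀ i, P s(c (Fin.last m), c 0) ≤ P s(c i, c (i + 1))

theorem mem_cyc {E : Finset (Sym2 V)} {P : Sym2 V → ℝ} {m : ℕ} {c : Fin (m + 1) → V} :
    c ∈ cyc E P m ↔ Function.Injective c ∧ cedges c ⊆ E ∧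
      ∀ i, P s(c (Fin.last m), c 0) ≤ P s(c i, c (i + 1)) := by
  unfold cyc
  simp

/-- The weighted number of closed walks. -/
theorem cyc_sum_le (E : Finset (Sym2 V)) (P : Sym2 V → ℝ) (hP0 : ∀ e, 0 ≤ P e)
    (hP1 : ∀ e, P e ≤ 1) (κ : ℝ) (hκ : 0 ≤ κ) (D : ℝ) (hD0 : 0 ≤ D) (r m : ℕ) (hm : 2 ≤ m)
    (hmr : m ≤ r) (S : Finset V) (hS : ∀ e ∈ E, ∀ v ∈ e, v ∈ S)
    (hD : ∀ u, ∑ v, (if s(u, v) ∈ E then κ * P s(u, v) ^ (r + 1) else 0) ≤ D) :
    ∑ c ∈ cyc E P m, ∏ e ∈ cedges c, κ * P e ^ r ≤ κ * S.card * D ^ m := by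
  classical
  set F : V → V → ℝ := fun u v => if s(u, v) ∈ E then κ * P s(u, v) ^ (r + 1) else 0 with hF
  have hF0 : ∀ u v, 0 ≤ F u v := by
    intro u v
    simp only [hF]
    split_ifs
    · exact mul_nonneg hκ (pow_nonneg (hP0 _) _)
    · exact le_rfl
  have h1 : ∀ c ∈ cyc E P m, ∏ e ∈ cedges c, κ * P e ^ r
      ≤ κ * ((if c 0 ∈ S then 1 else 0) * ∏ i : Fin m, F (c i.castSucc) (c i.succ)) := by
    intro c hc
    obtain ⟨hinj, hsub, hmin⟩ := mem_cyc.mp hc
    have hmem : ∀ i : Fin (m + 1), s(c i, c (i + 1)) ∈ E := fun i =>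
      hsub (mem_image_of_mem _ (mem_univ i))
    rw [prod_cedges hm c hinj]
    have h0 : c 0 ∈ S := hS _ (hmem 0) _ (Sym2.mem_mk_left _ _)
    rw [if_pos h0, one_mul]
    have hFi : ∀ i : Fin m, F (c i.castSucc) (c i.succ)
        = P s(c i.castSucc, c i.succ) * (κ * P s(c i.castSucc, c i.succ) ^ r) := by
      intro i
      have h2 : s(c i.castSucc, c i.succ) ∈ E := by
        have := hmem i.castSucc
        rwa [Fin.coeSucc_eq_succ] at this
      simp only [hF]
      rw [if_pos h2]
      ring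
    have h3 : ∏ i : Fin m, F (c i.castSucc) (c i.succ)
        = (∏ i : Fin m, P s(c i.castSucc, c i.succ))
          * ∏ i : Fin m, (κ * P s(c i.castSucc, c i.succ) ^ r) := by
      rw [← prod_mul_distrib]
      exact prod_congr rfl fun i _ => hFi i
    rw [h3]
    set x := P s(c (Fin.last m), c 0) with hx
    have hxm : x ^ r ≤ ∏ i : Fin m, P s(c i.castSucc, c i.succ) := by
      calc x ^ r ≤ x ^ m := pow_le_pow_of_le_one (hP0 _) (hP1 _) hmr
        _ = ∏ _i : Fin m, x := by simp
        _ ≤ _ := by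
          refine prod_le_prod (fun i _ => hP0 _) fun i _ => ?_
          have := hmin i.castSucc
          rwa [Fin.coeSucc_eq_succ] at this
    have h4 : 0 ≤ ∏ i : Fin m, (κ * P s(c i.castSucc, c i.succ) ^ r) :=
      prod_nonneg fun i _ => mul_nonneg hκ (pow_nonneg (hP0 _) _)
    calc (∏ i : Fin m, (κ * P s(c i.castSucc, c i.succ) ^ r)) * (κ * x ^ r)
        = κ * (x ^ r * ∏ i : Fin m, (κ * P s(c i.castSucc, c i.succ) ^ r)) := by ring
      _ ≤ κ * ((∏ i : Fin m, P s(c i.castSucc, c i.succ))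
          * ∏ i : Fin m, (κ * P s(c i.castSucc, c i.succ) ^ r)) :=
        mul_le_mul_of_nonneg_left (mul_le_mul_of_nonneg_right hxm h4) hκ
  calc ∑ c ∈ cyc E P m, ∏ e ∈ cedges c, κ * P e ^ r
      ≤ ∑ c ∈ cyc E P m, κ * ((if c 0 ∈ S then 1 else 0)
          * ∏ i : Fin m, F (c i.castSucc) (c i.succ)) := sum_le_sum h1
    _ ≤ ∑ c : Fin (m + 1) → V, κ * ((if c 0 ∈ S then 1 else 0)
          * ∏ i : Fin m, F (c i.castSucc) (c i.succ)) := by
        refine sum_le_sum_of_subset_of_nonneg (subset_univ _) fun c _ _ => ?_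
        refine mul_nonneg hκ (mul_nonneg ?_ (prod_nonneg fun i _ => hF0 _ _))
        split_ifs <;> norm_num
    _ = κ * ∑ c : Fin (m + 1) → V, (if c 0 ∈ S then 1 else 0)
          * ∏ i : Fin m, F (c i.castSucc) (c i.succ) := by rw [mul_sum]
    _ ≤ κ * ((∑ v, (if v ∈ S then (1 : ℝ) else 0)) * D ^ m) := by
        refine mul_le_mul_of_nonneg_left ?_ hκ
        refine path_sum_le F hF0 D hD0 hD m (fun v => if v ∈ S then 1 else 0) fun v => ?_
        split_ifs <;> norm_num
    _ = κ * S.card * D ^ m := by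
        have : ∑ v, (if v ∈ S then (1 : ℝ) else 0) = S.card := by
          rw [← sum_filter]
          simp
        rw [this]
        ring

/-- A set of edges without injective closed walks of length less than `g`, up to rotation so that
the closing edge minimises `P`, spans a graph of girth at least `g`. -/
theorem le_egirth_fromEdgeSet (T : Finset (Sym2 V)) (P : Sym2 V → ℝ) (g : ℕ)
    (h : ∀ m, 2 ≤ m → m + 1 < g → cyc T P m = ∅) :
    (g : ℕ∞) ≤ (SimpleGraph.fromEdgeSet (T : Set (Sym2 V))).egirth := by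
  rw [SimpleGraph.le_egirth]
  intro a w hw
  by_contra hlt
  push Not at hlt
  have hlen : w.length < g := by exact_mod_cast hlt
  have h3 := hw.three_le_length
  obtain ⟨m, hm⟩ : ∃ m, w.length = m + 1 := ⟨w.length - 1, by omega⟩
  have hm2 : 2 ≤ m := by omega
  set c : Fin (m + 1) → V := fun i => w.getVert i with hc
  have hinj : Function.Injective c := by
    intro i j hij
    have h4 := hw.getVert_injOn' (x₁ := i) (x₂ := j) (by simp; omega) (by simp; omega) hij
    exact Fin.ext h4
  have hedge : ∀ i, s(c i, c (i + 1)) ∈ T := by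
    intro i
    have hi : (i : ℕ) < w.length := by rw [hm]; exact i.2
    have h5 := w.adj_getVert_succ hi
    rw [SimpleGraph.fromEdgeSet_adj] at h5
    have h6 : c (i + 1) = w.getVert ((i : ℕ) + 1) := by
      simp only [hc]
      rcases Fin.eq_castSucc_or_eq_last i with ⟨j, rfl⟩ | rfl
      · rw [Fin.coeSucc_eq_succ]
        simp
      · rw [Fin.last_add_one]
        simp only [Fin.val_zero, Fin.val_last, SimpleGraph.Walk.getVert_zero]
        rw [← hm, SimpleGraph.Walk.getVert_length]
    rw [h6]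
    exact h5.1
  obtain ⟨j, -, hj⟩ := exists_min_image (univ : Finset (Fin (m + 1)))
    (fun i => P s(c i, c (i + 1))) ⟨0, mem_univ _⟩
  set c' : Fin (m + 1) → V := fun i => c (i + (j + 1)) with hc'
  have hmem : c' ∈ cyc T P m := by
    rw [mem_cyc]
    refine ⟨fun x y hxy => add_right_cancel (hinj hxy), ?_, fun i => ?_⟩
    · intro e he
      unfold cedges at he
      obtain ⟨i, -, rfl⟩ := mem_image.mp he
      simp only [hc']
      have := hedge (i + (j + 1))
      have h7 : i + 1 + (j + 1) = i + (j + 1) + 1 := by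
        rw [add_assoc, add_comm 1 (j + 1), ← add_assoc]
      rwa [h7]
    · simp only [hc']
      have h7 : i + 1 + (j + 1) = i + (j + 1) + 1 := by
        rw [add_assoc, add_comm 1 (j + 1), ← add_assoc]
      rw [h7]
      have h8 : Fin.last m + (j + 1) = j := by
        have : Fin.last m + (j + 1) = j + (Fin.last m + 1) := by
          rw [← add_assoc, add_comm (Fin.last m) j, add_assoc]
        rw [this, Fin.last_add_one, add_zero]
      have h9 : (0 : Fin (m + 1)) + (j + 1) = j + 1 := zero_add _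
      rw [h8, h9]
      exact hj _ (mem_univ _)
  rw [h m hm2 (by omega)] at hmem
  simp at hmem

end Pool.Agent.Work.MP_db704b_co
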