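import Mathlib

/-!
# A convex energy and its minimiser

For finitely many functions `x i : ε → [0,1]` there is a probability vector `π` such that, with
`P e = ∑ i, π i * x i e`, every `i` satisfies `∑ e, P e ^ (q+1) ≤ ∑ e, P e ^ q * x i e`.
-/

set_option autoImplicit false

namespace Pool.Agent.Work.MP_db704b_co

open Finset Filter Topology

/-- Existence of the minimiser of the energy `∑ e, P e ^ (q+1)` and its first order condition. -/
theorem exists_min_energy {ι ε : Type*} [Fintype ι] [Nonempty ι] [DecidableEq ι]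
    (E : Finset ε) (x : ι → ε → ℝ) (q : ℕ) :
    ∃ π ∈ stdSimplex ℝ ι, ∀ i,
      ∑ e ∈ E, (∑ j, π j * x j e) ^ (q + 1) ≤ ∑ e ∈ E, (∑ j, π j * x j e) ^ q * x i e := by
  set f : (ι → ℝ) → ℝ := fun π => ∑ e ∈ E, (∑ j, π j * x j e) ^ (q + 1) with hf
  have hcont : Continuous f := by
    refine continuous_finsetSum _ fun e _ => ?_
    refine Continuous.pow ?_ _
    exact continuous_finsetSum _ fun j _ => (continuous_apply j).mul continuous_const
  obtain ⟨i₀⟩ := ‹Nonempty ι›
  obtain ⟨π, hπ, hmin⟩ := (isCompact_stdSimplex ℝ ι).exists_isMinOn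
    ⟨_, single_mem_stdSimplex ℝ i₀⟩ hcont.continuousOn
  refine ⟨π, hπ, fun i => ?_⟩
  set P : ε → ℝ := fun e => ∑ j, π j * x j e with hP
  set φ : ℝ → ℝ := fun t => ∑ e ∈ E, (P e + t * (x i e - P e)) ^ (q + 1) with hφ
  have hderiv : HasDerivAt φ (∑ e ∈ E, ((q + 1 : ℕ) : ℝ) * P e ^ q * (x i e - P e)) 0 := by
    refine HasDerivAt.fun_sum fun e _ => ?_
    have h1 : HasDerivAt (fun t : ℝ => P e + t * (x i e - P e)) (x i e - P e) 0 := by
      simpa using ((hasDerivAt_id (0 : ℝ)).mul_const (x i e - P e)).const_add (P e)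
    have h2 := h1.fun_pow (q + 1)
    simpa using h2
  have hge : ∀ t : ℝ, 0 < t → t ≤ 1 → φ 0 ≤ φ t := by
    intro t ht0 ht1
    set δ : ι → ℝ := Pi.single i (1 : ℝ) with hδ
    have hmem : (1 - t) • π + t • δ ∈ stdSimplex ℝ ι :=
      (convex_stdSimplex ℝ ι) hπ (single_mem_stdSimplex ℝ i) (by linarith) ht0.le (by ring)
    have h1 := hmin hmem
    simp only [Set.mem_ofPred_eq] at h1
    have h2 : f ((1 - t) • π + t • δ) = φ t := by
      simp only [hf, hφ]
      refine sum_congr rfl fun e _ => ?_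
      congr 1
      have : ∑ j, ((1 - t) • π + t • δ) j * x j e
          = (1 - t) * (∑ j, π j * x j e) + t * x i e := by
        have hs : ∑ j, δ j * x j e = x i e := by
          rw [Finset.sum_eq_single i]
          · simp [hδ]
          · intro j _ hj
            simp [hδ, Pi.single_eq_of_ne hj]
          · simp
        rw [← hs, mul_sum, mul_sum, ← sum_add_distrib]
        refine sum_congr rfl fun j _ => ?_
        simp only [Pi.add_apply, Pi.smul_apply, smul_eq_mul]
        ring
      rw [this]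
      simp only [hP]
      ring
    have h3 : f π = φ 0 := by
      simp only [hf, hφ, hP]
      refine sum_congr rfl fun e _ => by simp
    rw [← h2, ← h3]
    exact h1
  have hslope := hderiv.tendsto_slope_zero_right
  have hnonneg : 0 ≤ ∑ e ∈ E, ((q + 1 : ℕ) : ℝ) * P e ^ q * (x i e - P e) := by
    refine ge_of_tendsto hslope ?_
    have hev : ∀ᶠ t : ℝ in 𝓝[>] 0, t ≤ 1 :=
      (nhdsWithin_le_nhds (Iic_mem_nhds (by norm_num : (0 : ℝ) < 1)))
    filter_upwards [hev, self_mem_nhdsWithin] with t ht1 ht0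
    have := hge t ht0 ht1
    simp only [zero_add, smul_eq_mul]
    exact mul_nonneg (inv_nonneg.mpr (le_of_lt ht0)) (by linarith)
  have hq : (0 : ℝ) < ((q + 1 : ℕ) : ℝ) := by positivity
  have h4 : ∑ e ∈ E, ((q + 1 : ℕ) : ℝ) * P e ^ q * (x i e - P e)
      = ((q + 1 : ℕ) : ℝ) * (∑ e ∈ E, P e ^ q * x i e - ∑ e ∈ E, P e ^ (q + 1)) := by
    rw [← sum_sub_distrib, mul_sum]
    exact sum_congr rfl fun e _ => by ring
  rw [h4] at hnonneg
  have h5 := nonneg_of_mul_nonneg_right hnonneg hq
  linarith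

end Pool.Agent.Work.MP_db704b_co
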