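import Mathlib

/-!
# Low energy: a large independent set

If a random set `S i` of at least `n / (2k)` vertices contains the edges `e` with probabilities `P e`
and `∑ P e ^ q ≤ Λ n`, the intersection of `q` independent copies has few edges on average.
-/

set_option autoImplicit false

namespace Pool.Agent.Work.MP_db704b_co

open Finset

variable {V : Type*} [Fintype V] [DecidableEq V]

/-- Double counting of the edges at the vertices of a set. -/
theorem sum_incident (E : Finset (Sym2 V)) (hdiag : ∀ e ∈ E, ¬ e.IsDiag) (f : Sym2 V → ℝ) :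
    ∑ v : V, ∑ e ∈ E.filter (fun e => v ∈ e), f e = 2 * ∑ e ∈ E, f e := by
  simp only [sum_filter]
  rw [sum_comm, mul_sum]
  refine sum_congr rfl fun e he => ?_
  rw [← sum_filter, sum_const, nsmul_eq_mul]
  congr 1
  have h1 : (univ.filter fun v : V => v ∈ e) = e.toFinset := by
    ext v
    simp [Sym2.mem_toFinset]
  rw [h1, Sym2.card_toFinset_of_not_isDiag e (hdiag e he)]
  norm_num

/-- A set of vertices with at most `d` times as many edges contains a large independent set. -/
theorem exists_indep_of_sparse (E : Finset (Sym2 V)) (hdiag : ∀ e ∈ E, ¬ e.IsDiag)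
    (W : Finset V) (d : ℝ) (hd : 0 < d)
    (hW : ((E.filter fun e => e ∈ W.sym2).card : ℝ) ≤ d * W.card) :
    ∃ M ⊆ W, (∀ e ∈ E, e ∉ M.sym2) ∧ (W.card : ℝ) ≤ 2 * (1 + 4 * d) * M.card := by
  classical
  set EW := E.filter fun e => e ∈ W.sym2 with hEW
  set W1 := W.filter fun v => ((EW.filter fun e => v ∈ e).card : ℝ) ≤ 4 * d with hW1
  have hW1sub : W1 ⊆ W := filter_subset _ _
  -- at least half of the vertices have small degree
  have hhalf : (W.card : ℝ) ≤ 2 * W1.card := by
    by_contra hcon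
    push Not at hcon
    set Wh := W.filter fun v => ¬ ((EW.filter fun e => v ∈ e).card : ℝ) ≤ 4 * d with hWh
    have hsplit : W1.card + Wh.card = W.card := card_filter_add_card_filter_not _
    have hsplit' : (W1.card : ℝ) + Wh.card = W.card := by exact_mod_cast hsplit
    have h1 : (Wh.card : ℝ) * (4 * d) ≤ ∑ v ∈ Wh, ((EW.filter fun e => v ∈ e).card : ℝ) := by
      rw [← nsmul_eq_mul]
      refine card_nsmul_le_sum _ _ _ fun v hv => ?_
      have := (mem_filter.mp hv).2
      push Not at this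
      exact this.le
    have h2 : ∑ v ∈ Wh, ((EW.filter fun e => v ∈ e).card : ℝ)
        ≤ ∑ v : V, ((EW.filter fun e => v ∈ e).card : ℝ) :=
      sum_le_sum_of_subset_of_nonneg (subset_univ _) fun _ _ _ => Nat.cast_nonneg _
    have h3 : ∑ v : V, ((EW.filter fun e => v ∈ e).card : ℝ) = 2 * EW.card := by
      have := sum_incident EW (fun e he => hdiag e (mem_filter.mp he).1) (fun _ => 1)
      simpa using this
    have h4 : (W.card : ℝ) < 2 * Wh.card := by linarith
    nlinarith
  -- a maximum independent subset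
  obtain ⟨M, hM, hmax⟩ := exists_max_image
    (W1.powerset.filter fun M => ∀ e ∈ E, e ∉ M.sym2) Finset.card
    ⟨∅, mem_filter.mpr ⟨empty_mem_powerset _, fun e _ => by
      rw [sym2_empty]; exact notMem_empty _⟩⟩
  obtain ⟨hMsub, hMind⟩ := mem_filter.mp hM
  rw [mem_powerset] at hMsub
  refine ⟨M, hMsub.trans hW1sub, hMind, ?_⟩
  have hcover : W1 ⊆ M ∪ M.biUnion fun u => W.filter fun v => s(u, v) ∈ E := by
    intro v hv
    by_contra hnot
    rw [mem_union, not_or] at hnot
    obtain ⟨hvM, hvN⟩ := hnot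
    have hins : insert v M ∈ W1.powerset.filter fun M => ∀ e ∈ E, e ∉ M.sym2 := by
      rw [mem_filter, mem_powerset]
      refine ⟨insert_subset hv hMsub, fun e he hmem => ?_⟩
      induction e using Sym2.ind with
      | _ a b =>
        rw [mk_mem_sym2_iff, mem_insert, mem_insert] at hmem
        obtain ⟨ha, hb⟩ := hmem
        rcases ha with rfl | ha
        · rcases hb with rfl | hb
          · exact hdiag _ he (by simp)
          · apply hvN
            rw [mem_biUnion]
            exact ⟨b, hb, mem_filter.mpr ⟨hW1sub hv, by rwa [Sym2.eq_swap]⟩⟩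
        · rcases hb with rfl | hb
          · apply hvN
            rw [mem_biUnion]
            exact ⟨a, ha, mem_filter.mpr ⟨hW1sub hv, he⟩⟩
          · exact hMind _ he (by rw [mk_mem_sym2_iff]; exact ⟨ha, hb⟩)
    have h5 := hmax _ hins
    rw [card_insert_of_notMem hvM] at h5
    omega
  have hdeg : ∀ u ∈ M, ((W.filter fun v => s(u, v) ∈ E).card : ℝ) ≤ 4 * d := by
    intro u hu
    have hu1 := hMsub hu
    have h6 := (mem_filter.mp hu1).2
    refine le_trans ?_ h6
    have h7 : (W.filter fun v => s(u, v) ∈ E).card ≤ (EW.filter fun e => u ∈ e).card := by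
      refine card_le_card_of_injOn (fun v => s(u, v)) ?_ ?_
      · intro v hv
        have hv' := mem_filter.mp (mem_coe.mp hv)
        simp only [coe_filter, Set.mem_ofPred_eq, hEW, mem_filter, mk_mem_sym2_iff]
        exact ⟨⟨hv'.2, (hW1sub hu1), hv'.1⟩, by simp⟩
      · intro v _ w _ hvw
        exact Sym2.congr_right.mp hvw
    exact_mod_cast h7
  have hcard : (W1.card : ℝ) ≤ (1 + 4 * d) * M.card := by
    have h8 : (W1.card : ℝ) ≤ M.card + ∑ u ∈ M, ((W.filter fun v => s(u, v) ∈ E).card : ℝ) := by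
      have := (card_le_card hcover).trans (card_union_le _ _)
      have h9 := this.trans (Nat.add_le_add_left card_biUnion_le _)
      exact_mod_cast h9
    have h10 : ∑ u ∈ M, ((W.filter fun v => s(u, v) ∈ E).card : ℝ) ≤ M.card * (4 * d) := by
      rw [← nsmul_eq_mul]
      exact sum_le_card_nsmul _ _ _ hdeg
    linarith
  linarith

theorem low_energy {ι : Type*} [Fintype ι] (U : Finset V) (k q : ℕ) (hk : 1 ≤ k)
    (S : ι → Finset V) (hS : ∀ i, S i ⊆ U) (hcard : ∀ i, U.card ≤ 2 * k * (S i).card)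
    (π : ι → ℝ) (hπ : π ∈ stdSimplex ℝ ι) (E : Finset (Sym2 V)) (hE : ∀ e ∈ E, e ∈ U.sym2)
    (hdiag : ∀ e ∈ E, ¬ e.IsDiag) (hU : U.Nonempty) (Λ : ℝ) (hΛ : 1 ≤ Λ)
    (hJ : ∑ e ∈ E, (∑ i, π i * (if e ∈ (S i).sym2 then 1 else 0)) ^ q ≤ Λ * U.card) :
    ∃ M ⊆ U, (∀ e ∈ E, e ∉ M.sym2) ∧
      (U.card : ℝ) ≤ 36 * Λ * (2 * k) ^ (2 * q) * M.card := by
  classical
  obtain ⟨hπ0, hπ1⟩ := hπ
  have hn : (0 : ℝ) < U.card := by exact_mod_cast hU.card_pos
  have hk' : (0 : ℝ) < 2 * k := by
    have : (1 : ℝ) ≤ k := by exact_mod_cast hk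
    linarith
  set a : ℝ := (1 / (2 * k)) ^ q with ha
  have ha0 : 0 < a := by positivity
  have ha1 : a ≤ 1 := by
    refine pow_le_one₀ (by positivity) ?_
    rw [div_le_one hk']
    have : (1 : ℝ) ≤ k := by exact_mod_cast hk
    linarith
  set Wf : (Fin q → ι) → Finset V := fun f => U.filter fun v => ∀ j, v ∈ S (f j) with hWf
  set w : (Fin q → ι) → ℝ := fun f => ∏ j, π (f j) with hw
  have hw0 : ∀ f, 0 ≤ w f := fun f => prod_nonneg fun j _ => hπ0 _
  have hw1 : ∑ f, w f = 1 := by
    simp only [hw]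
    rw [← Fintype.sum_pow π q, hπ1, one_pow]
  -- expected number of vertices
  have hvert : (U.card : ℝ) * a ≤ ∑ f, w f * (Wf f).card := by
    have h1 : ∑ f, w f * (Wf f).card
        = ∑ v ∈ U, (∑ i, π i * (if v ∈ S i then 1 else 0)) ^ q := by
      have h2 : ∀ f, w f * (Wf f).card
          = ∑ v ∈ U, ∏ j, (π (f j) * (if v ∈ S (f j) then 1 else 0)) := by
        intro f
        have h3 : ((Wf f).card : ℝ) = ∑ v ∈ U, ∏ j, (if v ∈ S (f j) then (1 : ℝ) else 0) := by
          simp only [hWf]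
          rw [card_filter]
          push_cast
          refine sum_congr rfl fun v _ => ?_
          by_cases hv : ∀ j, v ∈ S (f j)
          · rw [if_pos hv]
            exact (prod_eq_one fun j _ => if_pos (hv j)).symm
          · rw [if_neg hv]
            push Not at hv
            obtain ⟨j, hj⟩ := hv
            exact (prod_eq_zero (mem_univ j) (if_neg hj)).symm
        rw [h3, mul_sum]
        refine sum_congr rfl fun v _ => ?_
        simp only [hw]
        rw [← prod_mul_distrib]
      simp only [h2]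
      rw [sum_comm]
      refine sum_congr rfl fun v _ => ?_
      rw [Fintype.sum_pow]
    rw [h1]
    set p : V → ℝ := fun v => ∑ i, π i * (if v ∈ S i then 1 else 0) with hp
    have hp0 : ∀ v ∈ U, 0 ≤ p v := by
      intro v _
      refine sum_nonneg fun i _ => mul_nonneg (hπ0 i) ?_
      split_ifs <;> norm_num
    have hsum : (U.card : ℝ) / (2 * k) ≤ ∑ v ∈ U, p v := by
      have h4 : ∑ v ∈ U, p v = ∑ i, π i * (S i).card := by
        simp only [hp]
        rw [sum_comm]
        refine sum_congr rfl fun i _ => ?_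
        rw [← mul_sum]
        congr 1
        rw [← sum_filter, sum_const, nsmul_eq_mul, mul_one]
        congr 2
        ext v
        simp only [mem_filter]
        exact ⟨fun h => h.2, fun h => ⟨hS i h, h⟩⟩
      rw [h4]
      calc (U.card : ℝ) / (2 * k) = ∑ i, π i * ((U.card : ℝ) / (2 * k)) := by
            rw [← sum_mul, hπ1, one_mul]
        _ ≤ _ := by
            refine sum_le_sum fun i _ => mul_le_mul_of_nonneg_left ?_ (hπ0 i)
            rw [div_le_iff₀ hk']
            have := hcard i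
            have h5 : (U.card : ℝ) ≤ 2 * k * (S i).card := by exact_mod_cast this
            linarith
    have hpm := Real.pow_arith_mean_le_arith_mean_pow U (fun _ => (U.card : ℝ)⁻¹) p
      (fun _ _ => by positivity) (by
        rw [sum_const, nsmul_eq_mul]
        exact mul_inv_cancel₀ hn.ne') hp0 q
    rw [← mul_sum, ← mul_sum] at hpm
    have h6 : a ≤ ((U.card : ℝ)⁻¹ * ∑ v ∈ U, p v) ^ q := by
      rw [ha]
      refine pow_le_pow_left₀ (by positivity) ?_ q
      have h7 : (1 : ℝ) / (2 * k) = (U.card : ℝ)⁻¹ * ((U.card : ℝ) / (2 * k)) := by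
        field_simp
      rw [h7]
      exact mul_le_mul_of_nonneg_left hsum (by positivity)
    have h8 : a ≤ (U.card : ℝ)⁻¹ * ∑ v ∈ U, p v ^ q := h6.trans hpm
    calc (U.card : ℝ) * a ≤ U.card * ((U.card : ℝ)⁻¹ * ∑ v ∈ U, p v ^ q) :=
          mul_le_mul_of_nonneg_left h8 hn.le
      _ = ∑ v ∈ U, p v ^ q := by rw [← mul_assoc, mul_inv_cancel₀ hn.ne', one_mul]
  -- expected number of edges
  have hedge : ∑ f, w f * ((E.filter fun e => e ∈ (Wf f).sym2).card : ℝ) ≤ Λ * U.card := by
    refine le_trans (le_of_eq ?_) hJ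
    have h2 : ∀ f, w f * ((E.filter fun e => e ∈ (Wf f).sym2).card : ℝ)
        = ∑ e ∈ E, ∏ j, (π (f j) * (if e ∈ (S (f j)).sym2 then 1 else 0)) := by
      intro f
      have h3 : ((E.filter fun e => e ∈ (Wf f).sym2).card : ℝ)
          = ∑ e ∈ E, ∏ j, (if e ∈ (S (f j)).sym2 then (1 : ℝ) else 0) := by
        rw [card_filter]
        push_cast
        refine sum_congr rfl fun e he => ?_
        have hiff : e ∈ (Wf f).sym2 ↔ ∀ j, e ∈ (S (f j)).sym2 := by
          have heU := hE e he
          simp only [mem_sym2_iff] at heU ⊢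
          simp only [hWf, mem_filter]
          exact ⟨fun h j v hv => (h v hv).2 j, fun h v hv => ⟨heU v hv, fun j => h j v hv⟩⟩
        by_cases hv : ∀ j, e ∈ (S (f j)).sym2
        · rw [if_pos (hiff.mpr hv)]
          exact (prod_eq_one fun j _ => if_pos (hv j)).symm
        · rw [if_neg (fun h => hv (hiff.mp h))]
          push Not at hv
          obtain ⟨j, hj⟩ := hv
          exact (prod_eq_zero (mem_univ j) (if_neg hj)).symm
      rw [h3, mul_sum]
      refine sum_congr rfl fun e _ => ?_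
      simp only [hw]
      rw [← prod_mul_distrib]
    simp only [h2]
    rw [sum_comm]
    refine sum_congr rfl fun e _ => ?_
    rw [Fintype.sum_pow]
  -- a good choice
  set c : ℝ := a / (2 * Λ) with hc
  have hc0 : 0 < c := by positivity
  obtain ⟨f, hf⟩ : ∃ f, (U.card : ℝ) * a / 2
      ≤ (Wf f).card - c * ((E.filter fun e => e ∈ (Wf f).sym2).card : ℝ) := by
    by_contra hcon
    push Not at hcon
    have h1 : ∑ f, w f * (((Wf f).card : ℝ) - c * ((E.filter fun e => e ∈ (Wf f).sym2).card : ℝ))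
        < ∑ f, w f * ((U.card : ℝ) * a / 2) := by
      obtain ⟨f₀, hf₀⟩ : ∃ f, 0 < w f := by
        by_contra hall
        push Not at hall
        have : ∑ f, w f ≤ 0 := sum_nonpos fun f _ => hall f
        linarith
      refine sum_lt_sum (fun f _ => mul_le_mul_of_nonneg_left (hcon f).le (hw0 f))
        ⟨f₀, mem_univ _, mul_lt_mul_of_pos_left (hcon f₀) hf₀⟩
    rw [← sum_mul, hw1, one_mul] at h1
    have h2 : ∑ f, w f * (((Wf f).card : ℝ) - c * ((E.filter fun e => e ∈ (Wf f).sym2).card : ℝ))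
        = ∑ f, w f * ((Wf f).card : ℝ)
          - c * ∑ f, w f * ((E.filter fun e => e ∈ (Wf f).sym2).card : ℝ) := by
      rw [mul_sum, ← sum_sub_distrib]
      refine sum_congr rfl fun f _ => by ring
    rw [h2] at h1
    have h3 : c * ∑ f, w f * ((E.filter fun e => e ∈ (Wf f).sym2).card : ℝ)
        ≤ c * (Λ * U.card) := mul_le_mul_of_nonneg_left hedge hc0.le
    have h4 : c * (Λ * U.card) = U.card * a / 2 := by
      rw [hc]
      field_simp
    linarith
  set W := Wf f with hW
  have hWU : W ⊆ U := filter_subset _ _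
  have hcard0 : (0 : ℝ) ≤ ((E.filter fun e => e ∈ W.sym2).card : ℝ) := Nat.cast_nonneg _
  have hWcard : (U.card : ℝ) * a / 2 ≤ W.card := by nlinarith
  have hsparse : ((E.filter fun e => e ∈ W.sym2).card : ℝ) ≤ c⁻¹ * W.card := by
    rw [← div_eq_inv_mul, le_div_iff₀ hc0]
    have : (0 : ℝ) ≤ (U.card : ℝ) * a / 2 := by positivity
    linarith
  obtain ⟨M, hMW, hMind, hMcard⟩ := exists_indep_of_sparse E hdiag W c⁻¹ (by positivity) hsparse
  refine ⟨M, hMW.trans hWU, hMind, ?_⟩
  have hcinv : c⁻¹ = 2 * Λ / a := by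
    rw [hc, inv_div]
  have hb : 1 + 4 * c⁻¹ ≤ 9 * Λ / a := by
    rw [hcinv]
    have h1 : (1 : ℝ) ≤ Λ / a := by
      rw [le_div_iff₀ ha0]
      linarith
    have h2 : 4 * (2 * Λ / a) = 8 * (Λ / a) := by ring
    have h3 : 9 * Λ / a = 9 * (Λ / a) := by ring
    rw [h2, h3]
    linarith
  have hM0 : (0 : ℝ) ≤ M.card := Nat.cast_nonneg _
  have h1 : (U.card : ℝ) * a / 2 ≤ 2 * (9 * Λ / a) * M.card := by
    calc (U.card : ℝ) * a / 2 ≤ W.card := hWcard
      _ ≤ 2 * (1 + 4 * c⁻¹) * M.card := hMcard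
      _ ≤ 2 * (9 * Λ / a) * M.card := by
        refine mul_le_mul_of_nonneg_right ?_ hM0
        linarith
  have h2 : (U.card : ℝ) ≤ 36 * Λ * (a⁻¹) ^ 2 * M.card := by
    have h3 : (U.card : ℝ) = (U.card * a / 2) * (2 * a⁻¹) := by
      field_simp
    calc (U.card : ℝ) = (U.card * a / 2) * (2 * a⁻¹) := h3
      _ ≤ (2 * (9 * Λ / a) * M.card) * (2 * a⁻¹) :=
        mul_le_mul_of_nonneg_right h1 (by positivity)
      _ = 36 * Λ * (a⁻¹) ^ 2 * M.card := by
        rw [div_eq_mul_inv]
        ring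
  have h4 : (a⁻¹) ^ 2 = (2 * (k : ℝ)) ^ (2 * q) := by
    rw [ha, one_div, ← inv_pow, inv_inv, ← pow_mul, mul_comm q 2]
  rw [h4] at h2
  exact h2

end Pool.Agent.Work.MP_db704b_co
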