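import Mathlib

/-!
# Random subsets of a finite set

Weighted sums over the subsets `T` of a finite set `E`, where every `e ∈ E` is kept independently
with probability `p e`, and the existence of a subset that meets many given sets in many elements
and contains few of some other given sets.
-/

set_option autoImplicit false

namespace Pool.Agent.Work.MP_db704b_co

open Finset

variable {ε : Type*} [DecidableEq ε]

/-- The probability that the random subset of `E` equals `T`. -/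
noncomputable def wt (E : Finset ε) (p : ε → ℝ) (T : Finset ε) : ℝ :=
  (∏ e ∈ T, p e) * ∏ e ∈ E \ T, (1 - p e)

theorem wt_nonneg {E : Finset ε} {p : ε → ℝ} (hp0 : ∀ e ∈ E, 0 ≤ p e) (hp1 : ∀ e ∈ E, p e ≤ 1)
    {T : Finset ε} (hT : T ⊆ E) : 0 ≤ wt E p T := by
  unfold wt
  refine mul_nonneg (prod_nonneg fun e he => hp0 e (hT he)) (prod_nonneg fun e he => ?_)
  have := hp1 e (mem_sdiff.mp he).1
  linarith

theorem sum_wt_mul_prod (E : Finset ε) (p y : ε → ℝ) :
    ∑ T ∈ E.powerset, wt E p T * ∏ e ∈ T, y e = ∏ e ∈ E, (p e * y e + (1 - p e)) := by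
  rw [Finset.prod_add]
  refine sum_congr rfl fun T _ => ?_
  unfold wt
  rw [prod_mul_distrib]
  ring

theorem sum_wt (E : Finset ε) (p : ε → ℝ) : ∑ T ∈ E.powerset, wt E p T = 1 := by
  have h := sum_wt_mul_prod E p (fun _ => 1)
  simpa using h

theorem sum_wt_subset (E : Finset ε) (p : ε → ℝ) {A : Finset ε} (hA : A ⊆ E) :
    ∑ T ∈ E.powerset, wt E p T * (if A ⊆ T then 1 else 0) = ∏ e ∈ A, p e := by
  have h1 : ∏ e ∈ E, (p e + (if e ∈ A then 0 else 1 - p e)) = ∏ e ∈ A, p e := by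
    rw [← prod_sdiff hA]
    have h2 : ∏ e ∈ E \ A, (p e + (if e ∈ A then 0 else 1 - p e)) = 1 := by
      refine prod_eq_one fun e he => ?_
      simp [(mem_sdiff.mp he).2]
    have h3 : ∏ e ∈ A, (p e + (if e ∈ A then 0 else 1 - p e)) = ∏ e ∈ A, p e := by
      refine prod_congr rfl fun e he => ?_
      simp [he]
    rw [h2, h3, one_mul]
  rw [← h1, Finset.prod_add]
  refine sum_congr rfl fun T hT => ?_
  rw [mem_powerset] at hT
  unfold wt
  by_cases hAT : A ⊆ T
  · rw [if_pos hAT, mul_one]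
    congr 1
    refine prod_congr rfl fun e he => ?_
    rw [if_neg]
    exact fun heA => (mem_sdiff.mp he).2 (hAT heA)
  · rw [if_neg hAT, mul_zero]
    obtain ⟨e, heA, heT⟩ := not_subset.mp hAT
    have : ∏ e ∈ E \ T, (if e ∈ A then 0 else 1 - p e) = 0 := by
      refine prod_eq_zero (mem_sdiff.mpr ⟨hA heA, heT⟩) ?_
      rw [if_pos heA]
    rw [this, mul_zero]

/-- If the expectation of `∑ i, 2 ^ (m - |T ∩ A i|) + (1/m) * #{j | C j ⊆ T}` is less than `1`,
some `T` meets every `A i` in more than `m` elements and contains fewer than `m` of the `C j`. -/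
theorem exists_good_subset {ι₁ ι₂ : Type*} (s₁ : Finset ι₁) (s₂ : Finset ι₂)
    (E : Finset ε) (p : ε → ℝ) (hp0 : ∀ e ∈ E, 0 ≤ p e) (hp1 : ∀ e ∈ E, p e ≤ 1)
    (A : ι₁ → Finset ε) (hA : ∀ i ∈ s₁, A i ⊆ E) (C : ι₂ → Finset ε) (hC : ∀ j ∈ s₂, C j ⊆ E)
    (m : ℕ) (hm : 0 < m)
    (h : ∑ i ∈ s₁, (2 : ℝ) ^ m * ∏ e ∈ A i, (1 - p e / 2)
      + (m : ℝ)⁻¹ * ∑ j ∈ s₂, ∏ e ∈ C j, p e < 1) :
    ∃ T ⊆ E, (∀ i ∈ s₁, m < (A i ∩ T).card) ∧ (s₂.filter fun j => C j ⊆ T).card < m := by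
  classical
  set Φ : Finset ε → ℝ := fun T => ∑ i ∈ s₁, (2 : ℝ) ^ m * ∏ e ∈ T, (if e ∈ A i then 1 / 2 else 1)
    + (m : ℝ)⁻¹ * ∑ j ∈ s₂, (if C j ⊆ T then 1 else 0) with hΦ
  have hE : ∑ T ∈ E.powerset, wt E p T * Φ T
      = ∑ i ∈ s₁, (2 : ℝ) ^ m * ∏ e ∈ A i, (1 - p e / 2)
        + (m : ℝ)⁻¹ * ∑ j ∈ s₂, ∏ e ∈ C j, p e := by
    simp only [hΦ, mul_add, sum_add_distrib]
    congr 1
    · simp only [mul_sum]
      rw [sum_comm]
      refine sum_congr rfl fun i hi => ?_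
      have h1 := sum_wt_mul_prod E p (fun e => if e ∈ A i then 1 / 2 else 1)
      have h2 : ∏ e ∈ E, (p e * (if e ∈ A i then 1 / 2 else 1) + (1 - p e))
          = ∏ e ∈ A i, (1 - p e / 2) := by
        rw [← prod_sdiff (hA i hi)]
        have h3 : ∏ e ∈ E \ A i, (p e * (if e ∈ A i then 1 / 2 else 1) + (1 - p e)) = 1 := by
          refine prod_eq_one fun e he => ?_
          rw [if_neg (mem_sdiff.mp he).2]
          ring
        rw [h3, one_mul]
        refine prod_congr rfl fun e he => ?_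
        rw [if_pos he]
        ring
      rw [← h2, ← h1, mul_sum]
      refine sum_congr rfl fun T _ => by ring
    · simp only [mul_sum]
      rw [sum_comm]
      refine sum_congr rfl fun j hj => ?_
      rw [← sum_wt_subset E p (hC j hj), mul_sum]
      refine sum_congr rfl fun T _ => by ring
  have hex : ∃ T ∈ E.powerset, Φ T < 1 := by
    by_contra hcon
    push Not at hcon
    have h1 : (1 : ℝ) ≤ ∑ T ∈ E.powerset, wt E p T * Φ T := by
      calc (1 : ℝ) = ∑ T ∈ E.powerset, wt E p T * 1 := by simp [sum_wt]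
        _ ≤ _ := by
          refine sum_le_sum fun T hT => ?_
          exact mul_le_mul_of_nonneg_left (hcon T hT)
            (wt_nonneg hp0 hp1 (mem_powerset.mp hT))
    rw [hE] at h1
    linarith
  obtain ⟨T, hT, hlt⟩ := hex
  rw [mem_powerset] at hT
  have hnn1 : ∀ i ∈ s₁, (0 : ℝ) ≤ (2 : ℝ) ^ m * ∏ e ∈ T, (if e ∈ A i then 1 / 2 else 1) := by
    intro i _
    refine mul_nonneg (by positivity) (prod_nonneg fun e _ => ?_)
    split_ifs <;> norm_num
  have hnn2 : (0 : ℝ) ≤ (m : ℝ)⁻¹ * ∑ j ∈ s₂, (if C j ⊆ T then 1 else 0) := by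
    refine mul_nonneg (by positivity) (sum_nonneg fun j _ => ?_)
    split_ifs <;> norm_num
  refine ⟨T, hT, fun i hi => ?_, ?_⟩
  · have h1 : (2 : ℝ) ^ m * ∏ e ∈ T, (if e ∈ A i then (1 / 2 : ℝ) else 1) < 1 := by
      have h2 := single_le_sum hnn1 hi
      simp only [hΦ] at hlt
      linarith
    have h3 : ∏ e ∈ T, (if e ∈ A i then (1 / 2 : ℝ) else 1) = (1 / 2) ^ (A i ∩ T).card := by
      rw [Finset.prod_ite, prod_const, prod_const_one, mul_one]
      congr 2
      ext e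
      simp [and_comm]
    rw [h3] at h1
    by_contra hle
    push Not at hle
    have h4 : (1 : ℝ) ≤ 2 ^ m * (1 / 2) ^ (A i ∩ T).card := by
      have h5 : ((1 / 2 : ℝ)) ^ m ≤ (1 / 2) ^ (A i ∩ T).card :=
        pow_le_pow_of_le_one (by norm_num) (by norm_num) hle
      calc (1 : ℝ) = 2 ^ m * (1 / 2) ^ m := by rw [← mul_pow]; norm_num
        _ ≤ _ := mul_le_mul_of_nonneg_left h5 (by positivity)
    linarith
  · have h1 : (m : ℝ)⁻¹ * ∑ j ∈ s₂, (if C j ⊆ T then (1 : ℝ) else 0) < 1 := by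
      have h2 := sum_nonneg hnn1
      simp only [hΦ] at hlt
      linarith
    have hm' : (0 : ℝ) < m := by exact_mod_cast hm
    rw [inv_mul_lt_iff₀ hm', mul_one] at h1
    have h3 : ∑ j ∈ s₂, (if C j ⊆ T then (1 : ℝ) else 0)
        = ((s₂.filter fun j => C j ⊆ T).card : ℝ) := by
      rw [← sum_filter]
      simp
    rw [h3] at h1
    exact_mod_cast h1

end Pool.Agent.Work.MP_db704b_co
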