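import Mathlib
import Pool.Agent.Work.MP_db704b_co.Random
import Pool.Agent.Work.MP_db704b_co.Cycles
import Pool.Agent.Work.MP_db704b_co.Low

/-!
# High energy: a sparse subgraph of large girth and small independence number
-/

set_option autoImplicit false

namespace Pool.Agent.Work.MP_db704b_co

open Finset

variable {V : Type*} [Fintype V] [DecidableEq V]

theorem high_energy (U : Finset V) (hU : U.Nonempty) (k g : ℕ) (hk : 1 ≤ k) (hg : 3 ≤ g)
    (E : Finset (Sym2 V)) (hE : ∀ e ∈ E, e ∈ U.sym2) (hdiag : ∀ e ∈ E, ¬ e.IsDiag)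
    (P : Sym2 V → ℝ) (hP0 : ∀ e, 0 ≤ P e) (hP1 : ∀ e, P e ≤ 1)
    (hfirst : ∀ I ⊆ U, U.card ≤ 2 * k * I.card →
      ∑ e ∈ E, P e ^ (g - 2 + 1) ≤ ∑ e ∈ E, P e ^ (g - 2) * (if e ∈ I.sym2 then 1 else 0))
    (hJ : 16 * g * (32 * k) ^ (g - 2) * (U.card : ℝ) < ∑ e ∈ E, P e ^ (g - 2 + 1)) :
    ∃ T ⊆ E, (∀ m, 2 ≤ m → m + 1 < g → cyc T P m = ∅) ∧
      ∀ I ⊆ U, U.card ≤ k * I.card → ∃ e ∈ T, e ∈ I.sym2 := by
  classical
  obtain ⟨r, hr⟩ : ∃ r, g - 2 = r := ⟨_, rfl⟩
  rw [hr] at hfirst hJ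
  set J : ℝ := ∑ e ∈ E, P e ^ (r + 1) with hJdef
  set n : ℝ := (U.card : ℝ) with hn
  have hn0 : 0 < n := by simp only [hn]; exact_mod_cast hU.card_pos
  have hn1 : 1 ≤ n := by simp only [hn]; exact_mod_cast hU.card_pos
  have hk1 : (1 : ℝ) ≤ k := by exact_mod_cast hk
  have hg3 : (3 : ℝ) ≤ g := by exact_mod_cast hg
  have hD1 : (1 : ℝ) ≤ 32 * k := by linarith
  have hpow1 : (1 : ℝ) ≤ (32 * (k : ℝ)) ^ r := one_le_pow₀ hD1
  have hJ0 : 0 < J := by
    refine lt_of_le_of_lt ?_ hJ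
    positivity
  set κ : ℝ := 8 * n / J with hκ
  have hκ0 : 0 < κ := by positivity
  have hκJ : κ * J = 8 * n := by rw [hκ]; field_simp
  -- `κ` is small
  have hκsmall : g * (κ * (32 * (k : ℝ)) ^ r) ≤ 1 / 2 := by
    have h1 : κ * (16 * g * (32 * k) ^ r * n) ≤ 8 * n := by
      rw [← hκJ]
      exact mul_le_mul_of_nonneg_left hJ.le hκ0.le
    have h2 : (16 * (g * (κ * (32 * (k : ℝ)) ^ r))) * n ≤ 8 * n := by
      calc (16 * (g * (κ * (32 * (k : ℝ)) ^ r))) * n = κ * (16 * g * (32 * k) ^ r * n) := by ring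
        _ ≤ 8 * n := h1
    have h3 := le_of_mul_le_mul_right h2 hn0
    linarith
  have hκ1 : κ ≤ 1 := by
    have h1 : κ ≤ g * (κ * (32 * (k : ℝ)) ^ r) := by
      have h2 : κ * 1 ≤ κ * (32 * (k : ℝ)) ^ r := mul_le_mul_of_nonneg_left hpow1 hκ0.le
      have h3 : 1 * (κ * (32 * (k : ℝ)) ^ r) ≤ g * (κ * (32 * (k : ℝ)) ^ r) :=
        mul_le_mul_of_nonneg_right (by linarith) (by positivity)
      linarith
    linarith
  -- vertex energies
  set Jv : V → ℝ := fun v => ∑ e ∈ E.filter (fun e => v ∈ e), P e ^ (r + 1) with hJv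
  have hJv0 : ∀ v, 0 ≤ Jv v := fun v => sum_nonneg fun e _ => pow_nonneg (hP0 e) _
  have hJvsum : ∑ v, Jv v = 2 * J := sum_incident E hdiag fun e => P e ^ (r + 1)
  set B : Finset V := U.filter fun v => 4 * k * J < n * Jv v with hB
  have hBcard : 2 * k * B.card ≤ U.card := by
    have h1 : (B.card : ℝ) * (4 * k * J) ≤ ∑ v ∈ B, n * Jv v := by
      rw [← nsmul_eq_mul]
      exact card_nsmul_le_sum _ _ _ fun v hv => (mem_filter.mp hv).2.le
    have h2 : ∑ v ∈ B, n * Jv v ≤ n * (2 * J) := by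
      rw [← mul_sum, ← hJvsum]
      refine mul_le_mul_of_nonneg_left ?_ hn0.le
      exact sum_le_sum_of_subset_of_nonneg (subset_univ _) fun v _ _ => hJv0 v
    have h3 : (2 * k * B.card : ℝ) * (2 * J) ≤ n * (2 * J) := by
      calc (2 * k * B.card : ℝ) * (2 * J) = (B.card : ℝ) * (4 * k * J) := by ring
        _ ≤ n * (2 * J) := h1.trans h2
    have h4 : (2 * k * B.card : ℝ) ≤ n := le_of_mul_le_mul_right h3 (by linarith)
    simp only [hn] at h4
    exact_mod_cast h4
  set E' : Finset (Sym2 V) := E.filter fun e => ∀ v ∈ e, v ∉ B with hE'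
  have hE'E : E' ⊆ E := filter_subset _ _
  set p : Sym2 V → ℝ := fun e => κ * P e ^ r with hp
  have hp0 : ∀ e ∈ E', 0 ≤ p e := fun e _ => mul_nonneg hκ0.le (pow_nonneg (hP0 e) _)
  have hp1 : ∀ e ∈ E', p e ≤ 1 := fun e _ => by
    simp only [hp]
    calc κ * P e ^ r ≤ 1 * 1 :=
          mul_le_mul hκ1 (pow_le_one₀ (hP0 e) (hP1 e)) (pow_nonneg (hP0 e) _) zero_le_one
      _ = 1 := one_mul 1
  -- large sets
  set 𝓘 : Finset (Finset V) := U.powerset.filter fun I => U.card ≤ k * I.card with h𝓘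
  set A : Finset V → Finset (Sym2 V) := fun I => E'.filter fun e => e ∈ I.sym2 with hA
  have hAsum : ∀ I ∈ 𝓘, 8 * n ≤ ∑ e ∈ A I, p e := by
    intro I hI
    obtain ⟨hIU, hIc⟩ := mem_filter.mp hI
    rw [mem_powerset] at hIU
    have hsub : I \ B ⊆ U := sdiff_subset.trans hIU
    have hcard : U.card ≤ 2 * k * (I \ B).card := by
      have h1 : I.card ≤ (I \ B).card + B.card := by
        calc I.card ≤ (I \ B ∪ B).card := card_le_card (by
              intro v hv
              by_cases hvB : v ∈ B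
              · exact mem_union_right _ hvB
              · exact mem_union_left _ (mem_sdiff.mpr ⟨hv, hvB⟩))
          _ ≤ _ := card_union_le _ _
      have h2 : 2 * (k * I.card) ≤ 2 * (k * ((I \ B).card + B.card)) :=
        Nat.mul_le_mul_left _ (Nat.mul_le_mul_left _ h1)
      have h3 : 2 * (k * ((I \ B).card + B.card)) = 2 * k * (I \ B).card + 2 * k * B.card := by
        ring
      omega
    have h1 := hfirst _ hsub hcard
    have h2 : ∑ e ∈ E, P e ^ r * (if e ∈ (I \ B).sym2 then 1 else 0) ≤ ∑ e ∈ A I, P e ^ r := by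
      have h3 : ∑ e ∈ E, P e ^ r * (if e ∈ (I \ B).sym2 then (1 : ℝ) else 0)
          = ∑ e ∈ E.filter (fun e => e ∈ (I \ B).sym2), P e ^ r := by
        rw [sum_filter]
        refine sum_congr rfl fun e _ => ?_
        split_ifs <;> simp
      rw [h3]
      refine sum_le_sum_of_subset_of_nonneg ?_ fun e _ _ => pow_nonneg (hP0 e) _
      intro e he
      obtain ⟨heE, heI⟩ := mem_filter.mp he
      rw [mem_sym2_iff] at heI
      simp only [hA, hE', mem_filter, mem_sym2_iff]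
      exact ⟨⟨heE, fun v hv => (mem_sdiff.mp (heI v hv)).2⟩,
        fun v hv => (mem_sdiff.mp (heI v hv)).1⟩
    calc 8 * n = κ * J := hκJ.symm
      _ ≤ κ * ∑ e ∈ A I, P e ^ r := mul_le_mul_of_nonneg_left (h1.trans h2) hκ0.le
      _ = ∑ e ∈ A I, p e := by rw [mul_sum]
  -- the first expectation
  have hexp1 : ∑ I ∈ 𝓘, (2 : ℝ) ^ U.card * ∏ e ∈ A I, (1 - p e / 2) ≤ 1 / 4 := by
    have h1 : ∀ I ∈ 𝓘, (2 : ℝ) ^ U.card * ∏ e ∈ A I, (1 - p e / 2)
        ≤ 2 ^ U.card * Real.exp (-4 * n) := by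
      intro I hI
      refine mul_le_mul_of_nonneg_left ?_ (by positivity)
      have h2 : ∏ e ∈ A I, (1 - p e / 2) ≤ ∏ e ∈ A I, Real.exp (-(p e / 2)) := by
        refine prod_le_prod (fun e he => ?_) fun e _ => ?_
        · have := hp1 e (filter_subset _ _ he)
          linarith
        · have := Real.add_one_le_exp (-(p e / 2))
          linarith
      refine h2.trans ?_
      rw [← Real.exp_sum]
      refine Real.exp_le_exp.mpr ?_
      rw [sum_neg_distrib, ← sum_div]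
      have := hAsum I hI
      linarith
    have h3 : (𝓘.card : ℝ) ≤ 2 ^ U.card := by
      have := card_le_card (filter_subset (fun I => U.card ≤ k * I.card) U.powerset)
      rw [card_powerset] at this
      exact_mod_cast this
    calc ∑ I ∈ 𝓘, (2 : ℝ) ^ U.card * ∏ e ∈ A I, (1 - p e / 2)
        ≤ 𝓘.card • ((2 : ℝ) ^ U.card * Real.exp (-4 * n)) := sum_le_card_nsmul _ _ _ h1
      _ = 𝓘.card * ((2 : ℝ) ^ U.card * Real.exp (-4 * n)) := by rw [nsmul_eq_mul]
      _ ≤ 2 ^ U.card * ((2 : ℝ) ^ U.card * Real.exp (-4 * n)) :=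
        mul_le_mul_of_nonneg_right h3 (by positivity)
      _ = (4 * Real.exp (-4)) ^ U.card := by
        have h4 : Real.exp (-4 * n) = Real.exp (-4) ^ U.card := by
          rw [← Real.exp_nat_mul, hn]
          ring_nf
        rw [h4, mul_pow, ← mul_assoc, ← mul_pow]
        norm_num
      _ ≤ (1 / 4) ^ U.card := by
        refine pow_le_pow_left₀ (by positivity) ?_ _
        have h5 : (16 : ℝ) ≤ Real.exp 4 := by
          have h6 : (2 : ℝ) ≤ Real.exp 1 := by
            have := Real.add_one_le_exp (1 : ℝ)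
            linarith
          calc (16 : ℝ) = 2 ^ 4 := by norm_num
            _ ≤ Real.exp 1 ^ 4 := pow_le_pow_left₀ (by norm_num) h6 4
            _ = Real.exp 4 := by rw [← Real.exp_nat_mul]; norm_num
        rw [Real.exp_neg, ← div_eq_mul_inv, div_le_div_iff₀ (Real.exp_pos _) (by norm_num)]
        linarith
      _ ≤ (1 / 4) ^ 1 := pow_le_pow_of_le_one (by norm_num) (by norm_num) hU.card_pos
      _ = 1 / 4 := pow_one _
  -- the closed walks
  set s₂ : Finset (Σ m : ℕ, Fin (m + 1) → V) :=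
    ((range g).filter fun m => 2 ≤ m ∧ m + 1 < g).sigma fun m => cyc E' P m with hs₂
  set C : (Σ m : ℕ, Fin (m + 1) → V) → Finset (Sym2 V) := fun j => cedges j.2 with hC
  have hrow : ∀ u, ∑ v, (if s(u, v) ∈ E' then κ * P s(u, v) ^ (r + 1) else 0) ≤ 32 * k := by
    intro u
    by_cases hu : u ∈ U ∧ u ∉ B
    · have h1 : n * Jv u ≤ 4 * k * J := by
        by_contra hcon
        push Not at hcon
        exact hu.2 (mem_filter.mpr ⟨hu.1, hcon⟩)
      have h2 : ∑ v, (if s(u, v) ∈ E' then κ * P s(u, v) ^ (r + 1) else 0) ≤ κ * Jv u := by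
        rw [← sum_filter, ← mul_sum]
        refine mul_le_mul_of_nonneg_left ?_ hκ0.le
        have h3 : ∑ v ∈ univ.filter (fun v => s(u, v) ∈ E'), P s(u, v) ^ (r + 1)
            = ∑ e ∈ (univ.filter fun v => s(u, v) ∈ E').image (fun v => s(u, v)),
              P e ^ (r + 1) := by
          rw [sum_image]
          intro v _ w _ hvw
          exact Sym2.congr_right.mp hvw
        rw [h3]
        refine sum_le_sum_of_subset_of_nonneg ?_ fun e _ _ => pow_nonneg (hP0 e) _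
        intro e he
        obtain ⟨v, hv, rfl⟩ := mem_image.mp he
        exact mem_filter.mpr ⟨hE'E (mem_filter.mp hv).2, Sym2.mem_mk_left _ _⟩
      refine h2.trans ?_
      have h4 : (κ * Jv u) * (n * J) ≤ (32 * k) * (n * J) := by
        calc (κ * Jv u) * (n * J) = (κ * J) * (n * Jv u) := by ring
          _ ≤ (κ * J) * (4 * k * J) := mul_le_mul_of_nonneg_left h1 (by positivity)
          _ = (8 * n) * (4 * k * J) := by rw [hκJ]
          _ = (32 * k) * (n * J) := by ring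
      exact le_of_mul_le_mul_right h4 (by positivity)
    · have h1 : ∑ v, (if s(u, v) ∈ E' then κ * P s(u, v) ^ (r + 1) else 0) = 0 := by
        refine sum_eq_zero fun v _ => if_neg fun hmem => hu ?_
        obtain ⟨h2, h3⟩ := mem_filter.mp hmem
        have h4 := hE _ h2
        rw [mem_sym2_iff] at h4
        exact ⟨h4 u (Sym2.mem_mk_left _ _), h3 u (Sym2.mem_mk_left _ _)⟩
      rw [h1]
      positivity
  have hexp2 : n⁻¹ * ∑ j ∈ s₂, ∏ e ∈ C j, p e ≤ 1 / 2 := by
    have h1 : ∑ j ∈ s₂, ∏ e ∈ C j, p e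
        = ∑ m ∈ (range g).filter (fun m => 2 ≤ m ∧ m + 1 < g),
          ∑ c ∈ cyc E' P m, ∏ e ∈ cedges c, κ * P e ^ r := by
      rw [hs₂, sum_sigma]
    have h2 : ∀ m ∈ (range g).filter (fun m => 2 ≤ m ∧ m + 1 < g),
        ∑ c ∈ cyc E' P m, ∏ e ∈ cedges c, κ * P e ^ r ≤ κ * n * (32 * k) ^ r := by
      intro m hm
      obtain ⟨-, hm2, hmg⟩ := mem_filter.mp hm
      have hmr : m ≤ r := by omega
      refine (cyc_sum_le E' P hP0 hP1 κ hκ0.le (32 * k) (by positivity) r m hm2 hmr U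
        (fun e he v hv => ?_) hrow).trans ?_
      · have := hE _ (hE'E he)
        rw [mem_sym2_iff] at this
        exact this v hv
      · exact mul_le_mul_of_nonneg_left (pow_le_pow_right₀ hD1 hmr) (by positivity)
    have h3 : ∑ j ∈ s₂, ∏ e ∈ C j, p e ≤ g * (κ * n * (32 * k) ^ r) := by
      rw [h1]
      refine (sum_le_card_nsmul _ _ _ h2).trans ?_
      rw [nsmul_eq_mul]
      refine mul_le_mul_of_nonneg_right ?_ (by positivity)
      have := card_le_card (filter_subset (fun m => 2 ≤ m ∧ m + 1 < g) (range g))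
      rw [card_range] at this
      exact_mod_cast this
    calc n⁻¹ * ∑ j ∈ s₂, ∏ e ∈ C j, p e ≤ n⁻¹ * (g * (κ * n * (32 * k) ^ r)) :=
          mul_le_mul_of_nonneg_left h3 (by positivity)
      _ = g * (κ * (32 * (k : ℝ)) ^ r) := by field_simp
      _ ≤ 1 / 2 := hκsmall
  -- the random choice
  obtain ⟨T, hTE, hT1, hT2⟩ := exists_good_subset 𝓘 s₂ E' p hp0 hp1 A
    (fun I _ => filter_subset _ _) C
    (fun j hj => by
      rw [hs₂, mem_sigma] at hj
      exact (mem_cyc.mp hj.2).2.1) U.card hU.card_pos (by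
      have : (1 : ℝ) / 4 + 1 / 2 < 1 := by norm_num
      linarith)
  -- remove one edge from every short closed walk
  set Z : Finset (Sym2 V) := (s₂.filter fun j => C j ⊆ T).image
    fun j => s(j.2 (Fin.last j.1), j.2 0) with hZ
  have hZcard : Z.card < U.card := lt_of_le_of_lt card_image_le hT2
  refine ⟨T \ Z, sdiff_subset.trans (hTE.trans hE'E), ?_, ?_⟩
  · intro m hm2 hmg
    rw [eq_empty_iff_forall_notMem]
    intro c hc
    obtain ⟨hinj, hsub, hmin⟩ := mem_cyc.mp hc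
    have hsubT : cedges c ⊆ T := hsub.trans sdiff_subset
    have hj : (⟨m, c⟩ : Σ m : ℕ, Fin (m + 1) → V) ∈ s₂.filter fun j => C j ⊆ T := by
      rw [mem_filter, hs₂, mem_sigma]
      refine ⟨⟨?_, ?_⟩, hsubT⟩
      · rw [mem_filter, mem_range]
        exact ⟨lt_of_lt_of_le (Nat.lt_succ_self m) hmg.le, hm2, hmg⟩
      · exact mem_cyc.mpr ⟨hinj, hsubT.trans hTE, hmin⟩
    have hclose : s(c (Fin.last m), c 0) ∈ Z := mem_image_of_mem
      (fun j : (Σ m : ℕ, Fin (m + 1) → V) => s(j.2 (Fin.last j.1), j.2 0)) hj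
    have hclose2 : s(c (Fin.last m), c 0) ∈ cedges c := by
      unfold cedges
      rw [mem_image]
      exact ⟨Fin.last m, mem_univ _, by rw [Fin.last_add_one]⟩
    exact (mem_sdiff.mp (hsub hclose2)).2 hclose
  · intro I hIU hIc
    have hI : I ∈ 𝓘 := mem_filter.mpr ⟨mem_powerset.mpr hIU, hIc⟩
    have h1 := hT1 I hI
    have h2 : ((A I ∩ T) \ Z).Nonempty := by
      rw [← card_pos]
      have := le_card_sdiff Z (A I ∩ T)
      omega
    obtain ⟨e, he⟩ := h2
    obtain ⟨h3, h4⟩ := mem_sdiff.mp he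
    obtain ⟨h5, h6⟩ := mem_inter.mp h3
    exact ⟨e, mem_sdiff.mpr ⟨h6, h4⟩, (mem_filter.mp h5).2⟩

end Pool.Agent.Work.MP_db704b_co
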