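import Mathlib
import Pool.Agent.Work.MP_db704b_co.Energy
import Pool.Agent.Work.MP_db704b_co.High

/-!
# Sparse subgraphs of large girth and small independence ratio

The two cases (low and high energy) are put together.
-/

set_option autoImplicit false

namespace Pool.Agent.Work.MP_db704b_co

open Finset

/-- If all independent subsets of `U` have fewer than `|U| / (g * 128 ^ g * k ^ (3 * g - 4))`
elements, then `G` has a subgraph of girth at least `g` all of whose independent subsets of `U` have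
fewer than `|U| / k` elements. -/
theorem ratio_main {V : Type*} [Fintype V] (G : SimpleGraph V) (k g : ℕ) (hk : 1 ≤ k) (hg : 3 ≤ g)
    (U : Finset V) (hU : U.Nonempty)
    (hα : ∀ I ⊆ U, G.IsIndepSet (I : Set V) → g * 128 ^ g * k ^ (3 * g - 4) * I.card < U.card) :
    ∃ H ≤ G, (g : ℕ∞) ≤ H.egirth ∧
      ∀ I ⊆ U, H.IsIndepSet (I : Set V) → k * I.card < U.card := by
  classical
  obtain ⟨r, rfl⟩ : ∃ r, g = r + 2 := ⟨g - 2, by omega⟩
  set g := r + 2 with hgdef
  have hr : g - 2 = r := by omega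
  set E : Finset (Sym2 V) := G.edgeFinset.filter fun e => e ∈ U.sym2 with hE
  have hEU : ∀ e ∈ E, e ∈ U.sym2 := fun e he => (mem_filter.mp he).2
  have hdiag : ∀ e ∈ E, ¬ e.IsDiag := fun e he =>
    G.not_isDiag_of_mem_edgeSet (SimpleGraph.mem_edgeFinset.mp (mem_filter.mp he).1)
  have hindE : ∀ I ⊆ U, (∀ e ∈ E, e ∉ I.sym2) → G.IsIndepSet (I : Set V) := by
    intro I hI hind u hu v hv _ hadj
    refine hind s(u, v) (mem_filter.mpr ⟨SimpleGraph.mem_edgeFinset.mpr hadj, ?_⟩) ?_
    · rw [mk_mem_sym2_iff]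
      exact ⟨hI hu, hI hv⟩
    · rw [mk_mem_sym2_iff]
      exact ⟨hu, hv⟩
  set 𝓘 : Finset (Finset V) := U.powerset.filter fun I => U.card ≤ 2 * k * I.card with h𝓘
  have hU𝓘 : U ∈ 𝓘 := by
    rw [h𝓘, mem_filter, mem_powerset]
    refine ⟨Subset.refl U, ?_⟩
    calc U.card = 1 * U.card := (one_mul _).symm
      _ ≤ 2 * k * U.card := Nat.mul_le_mul_right _ (by omega)
  have : Nonempty {I // I ∈ 𝓘} := ⟨⟨U, hU𝓘⟩⟩
  set x : {I // I ∈ 𝓘} → Sym2 V → ℝ := fun I e => if e ∈ I.1.sym2 then 1 else 0 with hx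
  obtain ⟨π, hπ, hmin⟩ := exists_min_energy E x r
  set P : Sym2 V → ℝ := fun e => ∑ I, π I * x I e with hP
  have hx0 : ∀ I e, 0 ≤ x I e := by
    intro I e
    simp only [hx]
    split_ifs <;> norm_num
  have hx1 : ∀ I e, x I e ≤ 1 := by
    intro I e
    simp only [hx]
    split_ifs <;> norm_num
  have hP0 : ∀ e, 0 ≤ P e := fun e => sum_nonneg fun I _ => mul_nonneg (hπ.1 I) (hx0 I e)
  have hP1 : ∀ e, P e ≤ 1 := by
    intro e
    calc P e ≤ ∑ I, π I * 1 := sum_le_sum fun I _ => mul_le_mul_of_nonneg_left (hx1 I e) (hπ.1 I)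
      _ = 1 := (sum_congr rfl fun I _ => mul_one _).trans hπ.2
  by_cases hJ : (16 * g * (32 * k) ^ (g - 2) * (U.card : ℝ)) < ∑ e ∈ E, P e ^ (g - 2 + 1)
  · -- high energy
    obtain ⟨T, hTE, hT1, hT2⟩ := high_energy U hU k g hk hg E hEU hdiag P hP0 hP1
      (fun I hI hIc => by
        rw [hr]
        have := hmin ⟨I, mem_filter.mpr ⟨mem_powerset.mpr hI, hIc⟩⟩
        simpa only [hx] using this) hJ
    refine ⟨SimpleGraph.fromEdgeSet (T : Set (Sym2 V)), ?_, le_egirth_fromEdgeSet T P g hT1, ?_⟩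
    · intro u v huv
      rw [SimpleGraph.fromEdgeSet_adj] at huv
      have h1 := (mem_filter.mp (hTE (mem_coe.mp huv.1))).1
      rwa [SimpleGraph.mem_edgeFinset, SimpleGraph.mem_edgeSet] at h1
    · intro I hI hind
      by_contra hcon
      push Not at hcon
      obtain ⟨e, heT, heI⟩ := hT2 I hI hcon
      induction e using Sym2.ind with
      | _ a b =>
        rw [mk_mem_sym2_iff] at heI
        have hab : a ≠ b := by
          have := hdiag _ (hTE heT)
          simpa using this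
        exact hind heI.1 heI.2 hab (by
          rw [SimpleGraph.fromEdgeSet_adj]
          exact ⟨heT, hab⟩)
  · -- low energy
    exfalso
    push Not at hJ
    have hk1 : (1 : ℝ) ≤ k := by exact_mod_cast hk
    have hg3 : (3 : ℝ) ≤ (g : ℝ) := by exact_mod_cast hg
    have hΛ : (1 : ℝ) ≤ 16 * g * (32 * k) ^ (g - 2) := by
      have h1 : (1 : ℝ) ≤ (32 * (k : ℝ)) ^ (g - 2) := one_le_pow₀ (by linarith)
      nlinarith
    obtain ⟨M, hMU, hMind, hMcard⟩ := low_energy U k (g - 2 + 1) hk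
      (fun I : {I // I ∈ 𝓘} => I.1) (fun I => mem_powerset.mp (mem_filter.mp I.2).1)
      (fun I => (mem_filter.mp I.2).2) π hπ E hEU hdiag hU _ hΛ (by
        simpa only [hP, hx] using hJ)
    have h2 := hα M hMU (hindE M hMU hMind)
    have h2' : ((g : ℝ) * 128 ^ g * k ^ (3 * g - 4)) * M.card < U.card := by exact_mod_cast h2
    have h3 : 36 * (16 * g * (32 * k) ^ (g - 2)) * (2 * k) ^ (2 * (g - 2 + 1))
        ≤ (g : ℝ) * 128 ^ g * k ^ (3 * g - 4) := by
      have he1 : 3 * g - 4 = r + (2 * (r + 1)) := by omega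
      rw [hr, he1, pow_add (k : ℝ) r, mul_pow (32 : ℝ), mul_pow (2 : ℝ)]
      have h4 : (128 : ℝ) ^ g = 128 ^ r * 16384 := by
        rw [hgdef, pow_add]
        norm_num
      have h5 : (2 : ℝ) ^ (2 * (r + 1)) = 4 ^ r * 4 := by
        rw [pow_mul, pow_succ]
        norm_num
      have h6 : (128 : ℝ) ^ r = 32 ^ r * 4 ^ r := by
        rw [← mul_pow]
        norm_num
      rw [h4, h5, h6]
      have h7 : (0 : ℝ) ≤ (g : ℝ) * (32 ^ r * 4 ^ r) * ((k : ℝ) ^ r * (k : ℝ) ^ (2 * (r + 1))) := by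
        positivity
      nlinarith
    have h8 : (0 : ℝ) ≤ M.card := Nat.cast_nonneg _
    have h9 := mul_le_mul_of_nonneg_right h3 h8
    linarith

/-- Greedy colouring when every nonempty set of vertices contains a large independent set. -/
theorem exists_coloring_of_ratio {V : Type*} [Fintype V] (G : SimpleGraph V) (C : ℝ) (hC : 1 ≤ C)
    (h : ∀ U : Finset V, U.Nonempty → ∃ I ⊆ U, G.IsIndepSet (I : Set V) ∧
      (U.card : ℝ) ≤ C * I.card) (t : ℕ) :
    ∀ W : Finset V, (W.card : ℝ) * (1 - 1 / C) ^ t < 1 →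
      ∃ f : V → ℕ, (∀ v ∈ W, f v < t) ∧ ∀ u ∈ W, ∀ v ∈ W, G.Adj u v → f u ≠ f v := by
  classical
  have hC0 : 0 < C := by linarith
  have hq : 0 ≤ 1 - 1 / C := by
    rw [sub_nonneg, div_le_one hC0]
    exact hC
  induction t with
  | zero =>
    intro W hW
    have h1 : W = ∅ := by
      rw [pow_zero, mul_one] at hW
      rw [← card_eq_zero]
      have : W.card < 1 := by exact_mod_cast hW
      omega
    subst h1
    exact ⟨fun _ => 0, by simp, by simp⟩
  | succ t ih =>
    intro W hW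
    rcases W.eq_empty_or_nonempty with rfl | hWne
    · exact ⟨fun _ => 0, by simp, by simp⟩
    obtain ⟨I, hIW, hind, hcard⟩ := h W hWne
    have h1 : ((W \ I).card : ℝ) ≤ W.card * (1 - 1 / C) := by
      have h2 : ((W \ I).card : ℝ) = W.card - I.card := by
        rw [card_sdiff_of_subset hIW, Nat.cast_sub (card_le_card hIW)]
      have h3 : (W.card : ℝ) / C ≤ I.card := by
        rw [div_le_iff₀ hC0]
        linarith
      rw [h2, mul_sub, mul_one, mul_one_div]
      linarith
    have h2 : ((W \ I).card : ℝ) * (1 - 1 / C) ^ t < 1 := by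
      refine lt_of_le_of_lt ?_ hW
      rw [pow_succ']
      calc ((W \ I).card : ℝ) * (1 - 1 / C) ^ t ≤ (W.card * (1 - 1 / C)) * (1 - 1 / C) ^ t :=
            mul_le_mul_of_nonneg_right h1 (pow_nonneg hq t)
        _ = _ := by ring
    obtain ⟨f, hf1, hf2⟩ := ih (W \ I) h2
    refine ⟨fun v => if v ∈ I then t else f v, fun v hv => ?_, fun u hu v hv huv => ?_⟩
    · by_cases hvI : v ∈ I
      · simp only [if_pos hvI]
        exact Nat.lt_succ_self t
      · simp only [if_neg hvI]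
        exact (hf1 v (mem_sdiff.mpr ⟨hv, hvI⟩)).trans (Nat.lt_succ_self t)
    · by_cases huI : u ∈ I
      · by_cases hvI : v ∈ I
        · exact absurd huv (hind huI hvI huv.ne)
        · simp only [if_pos huI, if_neg hvI]
          exact (hf1 v (mem_sdiff.mpr ⟨hv, hvI⟩)).ne'
      · by_cases hvI : v ∈ I
        · simp only [if_neg huI, if_pos hvI]
          exact (hf1 u (mem_sdiff.mpr ⟨hu, huI⟩)).ne
        · simp only [if_neg huI, if_neg hvI]
          exact hf2 u (mem_sdiff.mpr ⟨hu, huI⟩) v (mem_sdiff.mpr ⟨hv, hvI⟩) huv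

theorem chromaticNumber_le_of_ratio {V : Type*} [Fintype V] (G : SimpleGraph V) (C : ℕ)
    (hC : 1 ≤ C) (h : ∀ U : Finset V, U.Nonempty → ∃ I ⊆ U, G.IsIndepSet (I : Set V) ∧
      U.card ≤ C * I.card) :
    G.chromaticNumber ≤ ((C * (Nat.log 2 (Fintype.card V) + 1) : ℕ) : ℕ∞) := by
  classical
  set n := Fintype.card V with hn
  set s := Nat.log 2 n + 1 with hs
  have hC1 : (1 : ℝ) ≤ C := by exact_mod_cast hC
  have hC0 : (0 : ℝ) < C := by linarith
  have hq : (0 : ℝ) ≤ 1 - 1 / C := by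
    rw [sub_nonneg, div_le_one hC0]
    exact hC1
  have h1 : (1 - 1 / (C : ℝ)) ^ C ≤ 1 / 2 := by
    have h2 : (1 - 1 / (C : ℝ)) ≤ Real.exp (-(1 / C)) := by
      have := Real.add_one_le_exp (-(1 / (C : ℝ)))
      linarith
    calc (1 - 1 / (C : ℝ)) ^ C ≤ Real.exp (-(1 / C)) ^ C := pow_le_pow_left₀ hq h2 C
      _ = Real.exp (-1) := by
        rw [← Real.exp_nat_mul]
        congr 1
        field_simp
      _ ≤ 1 / 2 := by
        rw [Real.exp_neg, ← one_div]
        refine one_div_le_one_div_of_le (by norm_num) ?_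
        have := Real.add_one_le_exp (1 : ℝ)
        linarith
  have h3 : ((univ : Finset V).card : ℝ) * (1 - 1 / (C : ℝ)) ^ (C * s) < 1 := by
    rw [pow_mul, card_univ, ← hn]
    have h4 : ((1 - 1 / (C : ℝ)) ^ C) ^ s ≤ (1 / 2) ^ s :=
      pow_le_pow_left₀ (pow_nonneg hq C) h1 s
    have h5 : n < 2 ^ s := Nat.lt_pow_succ_log_self (by norm_num) n
    have h6 : (n : ℝ) < 2 ^ s := by exact_mod_cast h5
    calc (n : ℝ) * ((1 - 1 / (C : ℝ)) ^ C) ^ s ≤ n * (1 / 2) ^ s :=
          mul_le_mul_of_nonneg_left h4 (Nat.cast_nonneg n)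
      _ < 2 ^ s * (1 / 2) ^ s := mul_lt_mul_of_pos_right h6 (by positivity)
      _ = 1 := by rw [← mul_pow]; norm_num
  obtain ⟨f, hf1, hf2⟩ := exists_coloring_of_ratio G C hC1
    (fun U hU => by
      obtain ⟨I, hI, hind, hc⟩ := h U hU
      exact ⟨I, hI, hind, by exact_mod_cast hc⟩) (C * s) univ h3
  refine SimpleGraph.Colorable.chromaticNumber_le ⟨SimpleGraph.Coloring.mk
    (fun v => ⟨f v, hf1 v (mem_univ v)⟩) fun {u v} huv heq => ?_⟩
  exact hf2 u (mem_univ u) v (mem_univ v) huv (by simpa using heq)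

/-- A set of vertices with small independence ratio forces a large chromatic number. -/
theorem lt_chromaticNumber_of_ratio {V : Type*} [Fintype V] (H : SimpleGraph V) (k : ℕ)
    (U : Finset V) (h : ∀ I ⊆ U, H.IsIndepSet (I : Set V) → k * I.card < U.card) :
    (k : ℕ∞) < H.chromaticNumber := by
  classical
  by_contra hcon
  push Not at hcon
  rw [SimpleGraph.chromaticNumber_le_iff_colorable] at hcon
  obtain ⟨c⟩ := hcon
  have h0 := h ∅ (empty_subset _) (by simp [SimpleGraph.IsIndepSet])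
  have h1 : ∀ i : Fin k, k * (U.filter fun v => c v = i).card < U.card := by
    intro i
    refine h _ (filter_subset _ _) ?_
    intro u hu v hv _ hadj
    have h2 := (mem_filter.mp (mem_coe.mp hu)).2
    have h3 := (mem_filter.mp (mem_coe.mp hv)).2
    exact c.valid hadj (h2.trans h3.symm)
  have h4 : U.card = ∑ i : Fin k, (U.filter fun v => c v = i).card :=
    card_eq_sum_card_fiberwise (f := c) (t := univ) fun v _ => mem_coe.mpr (mem_univ _)
  rcases Nat.eq_zero_or_pos k with hk | hk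
  · subst hk
    rw [univ_eq_empty, sum_empty] at h4
    omega
  · have : Nonempty (Fin k) := ⟨⟨0, hk⟩⟩
    have h5 : ∑ i : Fin k, k * (U.filter fun v => c v = i).card < ∑ _i : Fin k, U.card :=
      sum_lt_sum_of_nonempty univ_nonempty fun i _ => h1 i
    rw [← mul_sum, ← h4, sum_const, card_univ, Fintype.card_fin, smul_eq_mul] at h5
    exact lt_irrefl _ h5

end Pool.Agent.Work.MP_db704b_co
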